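import Pool.Agent.L0h99.MN.Stm

/-! # Board MN, module PAR -/

set_option autoImplicit false

namespace Pool.Agent.L0h95.MN

open Pool.Agent.L0h99.MN Finset

section

variable {V : Type} [Fintype V] [DecidableEq V]

open Classical in
/-- the adjacent pairs -/
noncomputable def EP (G : SimpleGraph V) (P Q : Finset V) : Finset (V × V) :=
  (P ×ˢ Q).filter fun p => G.Adj p.1 p.2

theorem mem_EP {G : SimpleGraph V} {P Q : Finset V} {p : V × V} :
    p ∈ EP G P Q ↔ (p.1 ∈ P ∧ p.2 ∈ Q) ∧ G.Adj p.1 p.2 := by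
  classical
  unfold EP
  rw [Finset.mem_filter, Finset.mem_product]

theorem ee_eq (G : SimpleGraph V) (P Q : Finset V) : ee G P Q = ((EP G P Q).card : ℤ) := by
  classical
  unfold ee EP
  rw [Finset.card_filter, Finset.sum_product]
  push_cast
  refine Finset.sum_congr rfl fun x _ => ?_
  have h1 : N G x ∩ Q = Q.filter fun y => G.Adj x y := by
    ext y
    rw [Finset.mem_inter, mem_N, Finset.mem_filter]
    tauto
  rw [h1, Finset.card_filter]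
  push_cast
  rfl

end

theorem PAR (hPAX : St_PAX) : St_PAR := by
  intro V _ _ G A P Q hU hP0 hQ0 hd
  obtain ⟨-, s, hs⟩ := hP0
  obtain ⟨-, s', hs'⟩ := hQ0
  have key : ∀ p ∈ EP G P Q, ∀ p' ∈ EP G P Q, p ≠ p' →
      (p.1 ∈ A ∧ p.2 ∈ A) ∧ s p.1 ≠ s p'.1 := by
    intro p hp p' hp' hne
    obtain ⟨⟨a1, a2⟩, a3⟩ := mem_EP.1 hp
    obtain ⟨⟨b1, b2⟩, b3⟩ := mem_EP.1 hp'
    have h1 : ¬ Lk G P p.1 p'.1 4 := fun h => by
      obtain ⟨e1, e2⟩ := hPAX V G P Q 4 5 p.1 p'.1 p.2 p'.2 hU hd a1 b1 a2 b2 a3 b3 h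
        (hs' _ a2 _ b2).1 (by norm_num)
      exact hne (Prod.ext e1 e2)
    have h2 : ¬ Lk G Q p.2 p'.2 4 := fun h => by
      obtain ⟨e1, e2⟩ := hPAX V G P Q 5 4 p.1 p'.1 p.2 p'.2 hU hd a1 b1 a2 b2 a3 b3
        (hs _ a1 _ b1).1 h (by norm_num)
      exact hne (Prod.ext e1 e2)
    have h3 : ¬ (p.1 ∉ A ∨ p'.1 ∉ A ∨ s p.1 = s p'.1) := fun h => h1 ((hs _ a1 _ b1).2 h)
    have h4 : ¬ (p.2 ∉ A ∨ p'.2 ∉ A ∨ s' p.2 = s' p'.2) := fun h => h2 ((hs' _ a2 _ b2).2 h)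
    push Not at h3 h4
    exact ⟨⟨h3.1, h4.1⟩, h3.2.2⟩
  have hnn : 0 ≤ ee G (P ∩ A) (Q ∩ A) := by
    rw [ee_eq]
    exact Int.natCast_nonneg _
  rcases Nat.eq_zero_or_pos (EP G P Q).card with h0 | h0
  · left
    rw [ee_eq, h0]
    rfl
  · right
    obtain ⟨p, hp⟩ := Finset.card_pos.1 h0
    obtain ⟨⟨a1, a2⟩, a3⟩ := mem_EP.1 hp
    refine ⟨⟨p.1, a1, p.2, a2, a3⟩, ?_⟩
    rcases Nat.lt_or_ge 2 (EP G P Q).card with h3 | h3
    · exfalso
      obtain ⟨a, ha, b, hb, c, hc, hab, hac, hbc⟩ := Finset.two_lt_card.1 h3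
      have k1 := (key a ha b hb hab).2
      have k2 := (key a ha c hc hac).2
      have k3 := (key b hb c hc hbc).2
      revert k1 k2 k3
      cases s a.1 <;> cases s b.1 <;> cases s c.1 <;> simp
    · rcases Nat.lt_or_ge 1 (EP G P Q).card with h4 | h4
      · have h5 : (EP G P Q).card = 2 := by omega
        have h6 : EP G P Q ⊆ EP G (P ∩ A) (Q ∩ A) := by
          intro a ha
          obtain ⟨b, hb, hab⟩ := Finset.exists_mem_ne h4 a
          have k1 := (key a ha b hb (Ne.symm hab)).1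
          obtain ⟨⟨c1, c2⟩, c3⟩ := mem_EP.1 ha
          exact mem_EP.2 ⟨⟨Finset.mem_inter.2 ⟨c1, k1.1⟩, Finset.mem_inter.2 ⟨c2, k1.2⟩⟩, c3⟩
        have h7 := Finset.card_le_card h6
        rw [ee_eq, ee_eq]
        omega
      · rw [ee_eq] at hnn ⊢
        rw [ee_eq]
        omega

end Pool.Agent.L0h95.MN
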