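import Pool.Agent.L0h99.MN.Stm

/-! # Board MN, module PAX -/

set_option autoImplicit false

namespace Pool.Agent.L0h95.MN

open Pool.Agent.L0h99.MN Finset

theorem PAX : St_PAX := by
  intro V _ _ G P Q m n x x' y y' hU hd hx hx' hy hy' hxy hxy' hp0 hq0 hmn
  obtain ⟨p, hp, hpl, hpP⟩ := hp0
  obtain ⟨q, hq, hql, hqQ⟩ := hq0
  have hPQ : ∀ z, z ∈ P → z ∈ Q → False := fun z h1 h2 => Finset.disjoint_left.1 hd h1 h2
  have hxx : x = x' := by
    by_contra hne
    have hr : (SimpleGraph.Walk.cons hxy (q.concat hxy'.symm)).IsPath := by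
      rw [SimpleGraph.Walk.cons_isPath_iff, SimpleGraph.Walk.concat_isPath_iff]
      refine ⟨⟨hq, fun h => hPQ _ hx' (hqQ _ h)⟩, fun h => ?_⟩
      rw [SimpleGraph.Walk.support_concat, List.mem_append] at h
      rcases h with h | h
      · exact hPQ _ hx (hqQ _ h)
      · exact hne (List.mem_singleton.1 h)
    have hl : p.length + (SimpleGraph.Walk.cons hxy (q.concat hxy'.symm)).length ≤ 11 := by
      rw [SimpleGraph.Walk.length_cons, SimpleGraph.Walk.length_concat]
      omega
    have e := hU x x' p _ hp hr hl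
    have h1 : y ∈ p.support := by
      rw [e, SimpleGraph.Walk.support_cons]
      exact List.mem_cons_of_mem _ (SimpleGraph.Walk.start_mem_support _)
    exact hPQ _ (hpP _ h1) hy
  refine ⟨hxx, ?_⟩
  subst hxx
  by_contra hne
  have hr : (SimpleGraph.Walk.cons hxy.symm (SimpleGraph.Walk.cons hxy' SimpleGraph.Walk.nil)).IsPath := by
    rw [SimpleGraph.Walk.cons_isPath_iff, SimpleGraph.Walk.cons_isPath_iff]
    refine ⟨⟨SimpleGraph.Walk.IsPath.nil, fun h => ?_⟩, fun h => ?_⟩
    · rw [SimpleGraph.Walk.support_nil] at h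
      exact hPQ _ hx ((List.mem_singleton.1 h) ▸ hy')
    · rw [SimpleGraph.Walk.support_cons, SimpleGraph.Walk.support_nil] at h
      rcases List.mem_cons.1 h with h | h
      · exact hPQ _ hx (h ▸ hy)
      · exact hne (List.mem_singleton.1 h)
  have hl : q.length + (SimpleGraph.Walk.cons hxy.symm (SimpleGraph.Walk.cons hxy' SimpleGraph.Walk.nil)).length ≤ 11 := by
    rw [SimpleGraph.Walk.length_cons, SimpleGraph.Walk.length_cons, SimpleGraph.Walk.length_nil]
    omega
  have e := hU y y' q _ hq hr hl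
  have h1 : x ∈ q.support := by
    rw [e, SimpleGraph.Walk.support_cons]
    exact List.mem_cons_of_mem _ (SimpleGraph.Walk.start_mem_support _)
  exact hPQ _ hx (hqQ _ h1)

end Pool.Agent.L0h95.MN
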